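import Pool.Agent.H10.IEP.Targets

/-!
# MP_e37c09_lc, module MB: the range of the embedding
-/

open Ordinal Cardinal Order Set
open scoped ZFSet
open _root_.HD Pool.Agent.H10.IEP

universe u

namespace Pool.Agent.H17.IEP

/-- a strictly increasing cofinal map preserves the cofinality -/
theorem mb_cof_eq {x y : Ordinal.{u}} (F : Ordinal.{u} → Ordinal.{u})
    (h1 : ∀ a b, a < b → b < x → F a < F b) (h2 : ∀ a < x, F a < y)
    (h3 : ∀ z < y, ∃ a < x, z < F a) : x.cof = y.cof := by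
  let G : Iio x → Iio y := fun a => ⟨F a.1, h2 a.1 a.2⟩
  have hG : StrictMono G := fun a b hab => h1 a.1 b.1 hab b.2
  have hc : IsCofinal (range G) := fun z => by
    obtain ⟨a, ha, h⟩ := h3 z.1 z.2
    exact ⟨G ⟨a, ha⟩, ⟨_, rfl⟩, h.le⟩
  have h := Order.cof_congr_of_strictMono hG hc
  rw [Ordinal.cof_Iio, Ordinal.cof_Iio, ← Ordinal.lift_cof, ← Ordinal.lift_cof] at h
  exact Cardinal.lift_injective h

theorem pf_MB (hXE : T_XE.{u}) : T_MB.{u} := by
  intro δ η θ j μ κ ρ hs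
  have hj := hs.emb
  constructor
  · intro a ha
    obtain ⟨x, hx, hax⟩ := hs.sup a ha
    exact ⟨Jo j x, hs.lt x hx, hax, x, hx, rfl⟩
  · intro y hy hy0 hyμ hyl
    have hex : ∃ x, x < κ ∧ y ≤ Jo j x := by
      obtain ⟨x, h1, h2⟩ := hs.sup y hy
      exact ⟨x, h1, h2.le⟩
    obtain ⟨x, ⟨hx1, hx2⟩, hmin⟩ : ∃ x, (x < κ ∧ y ≤ Jo j x) ∧ ∀ ξ < x, Jo j ξ < y := by
      refine ⟨sInf {x | x < κ ∧ y ≤ Jo j x}, csInf_mem (s := {x | x < κ ∧ y ≤ Jo j x}) hex,
        fun ξ hξ => ?_⟩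
      by_contra h
      push Not at h
      have h0 := csInf_mem (s := {x | x < κ ∧ y ≤ Jo j x}) hex
      have : sInf {x | x < κ ∧ y ≤ Jo j x} ≤ ξ :=
        csInf_le' (s := {x | x < κ ∧ y ≤ Jo j x}) ⟨hξ.trans h0.1, h⟩
      exact absurd hξ (not_lt.2 this)
    have hxη : x < η := hx1.trans hs.kη
    have hcof : ∀ z < y, ∃ a < x, z < Jo j a := by
      intro z hz
      obtain ⟨z', h1, h2, ξ, h3, rfl⟩ := hyl z hz
      refine ⟨ξ, ?_, h2⟩
      by_contra h
      push Not at h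
      have := (hj.le_iff hxη (h3.trans hs.kη)).2 h
      exact absurd (hx2.trans this) (not_le.2 h1)
    have hmono : ∀ a b, a < b → b < x → Jo j a < Jo j b := fun a b hab hb =>
      (hj.lt_iff (hab.trans (hb.trans hxη)) (hb.trans hxη)).2 hab
    have hxy : x.cof = y.cof := mb_cof_eq (Jo j) hmono hmin hcof
    have hlim : IsSuccLimit x := by
      obtain ⟨a0, ha0, -⟩ := hcof 0 hy0
      rw [Ordinal.isSuccLimit_iff, Order.isSuccPrelimit_iff_succ_lt]
      refine ⟨fun h0 => absurd ha0 (by rw [h0]; exact not_lt.2 bot_le), fun a ha => ?_⟩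
      obtain ⟨b, hb, hab⟩ := hcof _ (hmin a ha)
      have hlt' : a < b := (hj.lt_iff (ha.trans hxη) (hb.trans hxη)).1 hab
      exact lt_of_le_of_lt (Order.succ_le_of_lt hlt') hb
    have hreg : x.cof.IsRegular := Cardinal.isRegular_cof hlim
    have hlt : x.cof.ord < δ := by
      rw [hxy]
      exact lt_of_le_of_lt hyμ hs.μδ
    obtain ⟨h1, -⟩ := hXE δ η θ j hj x hxη x.cof hreg hlt rfl
    refine ⟨x, hx1, le_antisymm hx2 ?_⟩
    by_contra h
    push Not at h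
    obtain ⟨ξ, h3, h4⟩ := h1 y h
    exact absurd (hmin ξ h3) (not_lt.2 h4.le)

end Pool.Agent.H17.IEP
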